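import Pool.Agent.H75C.HY.NFA

/-!
# Piece B3: different sums of items have different supports
-/

set_option autoImplicit false

namespace Pool.Agent.H75C.HY.NF

open Pool.Agent.NPC Pool.Agent.H75C.HY

open Classical

namespace B3P

/-- The indicator of `x` in the support of `a`. -/
noncomputable def pv (τ : Bool) (Tb : Tab) (k : ℕ) (x : E k) (a : It) : ZMod 2 :=
  if x ∈ isem τ Tb k a then 1 else 0

lemma zcases (z : ZMod 2) : z = 0 ∨ z = 1 := by
  revert z; decide

lemma mem_ISet (τ : Bool) (Tb : Tab) (k : ℕ) (x : E k) (s : List It) :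
    x ∈ ISet τ Tb k s ↔ (s.map (pv τ Tb k x)).sum = 1 := by
  induction s with
  | nil => simp [ISet]
  | cons a s ih =>
    have h1 : ISet τ Tb k (a :: s) = symmDiff (isem τ Tb k a) (ISet τ Tb k s) := rfl
    rw [h1, Finset.mem_symmDiff, List.map_cons, List.sum_cons, ih]
    rcases zcases (s.map (pv τ Tb k x)).sum with h | h
    · rw [h]
      by_cases hx : x ∈ isem τ Tb k a
      · simp [pv, hx]
      · simp [pv, hx]
    · rw [h]
      by_cases hx : x ∈ isem τ Tb k a
      · simp only [pv, hx, not_true_eq_false, and_false, if_true]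
        constructor
        · rintro (h | h) <;> simp at h
        · intro h; exact absurd h (by decide)
      · simp [pv, hx]

lemma mem_ISet' (τ : Bool) (Tb : Tab) (k : ℕ) (x : E k) (s : List It) (hs : s.Nodup) :
    x ∈ ISet τ Tb k s ↔ ∑ a ∈ s.toFinset, pv τ Tb k x a = 1 := by
  rw [mem_ISet, List.sum_toFinset _ hs]

/-- Items that are not of the form `◇ψ`. -/
def bv (a : It) : Prop := a.1 ≤ 3 ∨ a = (4, 0)

noncomputable def elt (k : ℕ) (a : It) : E k :=
  if a.1 = 0 then Sum.inr (pro k a.2) else if a.1 = 1 then Sum.inl (.nom a.2)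
  else if a.1 = 2 then Sum.inl (.fr a.2) else if a.1 = 3 then Sum.inl (.lv a.2)
  else Sum.inr (one k)

lemma isem_bv (τ : Bool) (Tb : Tab) (k : ℕ) (a : It) (ha : bv a) :
    isem τ Tb k a = {elt k a} := by
  have h6 : a.1 ≠ 6 := by
    rcases ha with h | h
    · omega
    · rw [h]; decide
  have h1 : isem τ Tb k a = base k a := by
    cases k with
    | zero => rfl
    | succ k => rw [isem, if_neg h6]
  rw [h1]
  rcases ha with h | h
  · unfold base elt
    have : a.1 = 0 ∨ a.1 = 1 ∨ a.1 = 2 ∨ a.1 = 3 := by omega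
    rcases this with h | h | h | h <;> simp [h]
  · subst h
    simp [base, elt]

lemma pro_inj (k : ℕ) {i j : ℕ} (h : pro k i = pro k j) : i = j := by
  cases k with
  | zero => exact Option.some.inj h
  | succ k => exact Option.some.inj (Sum.inl.inj h)

lemma pro_ne_one (k : ℕ) (i : ℕ) : pro k i ≠ one k := by
  intro h
  cases k with
  | zero => exact absurd h (Option.some_ne_none i)
  | succ k => exact absurd (Sum.inl.inj h) (Option.some_ne_none i)

lemma elt_inj (k : ℕ) {a b : It} (ha : bv a) (hb : bv b) (h : elt k a = elt k b) : a = b := by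
  have h1 : ∀ c : It, bv c → (∃ i, c = (0, i)) ∨ (∃ i, c = (1, i)) ∨ (∃ i, c = (2, i)) ∨
      (∃ i, c = (3, i)) ∨ c = (4, 0) := by
    rintro ⟨c, d⟩ (h | h)
    · have h' : c ≤ 3 := h
      have : c = 0 ∨ c = 1 ∨ c = 2 ∨ c = 3 := by omega
      rcases this with rfl | rfl | rfl | rfl
      · exact Or.inl ⟨d, rfl⟩
      · exact Or.inr (Or.inl ⟨d, rfl⟩)
      · exact Or.inr (Or.inr (Or.inl ⟨d, rfl⟩))
      · exact Or.inr (Or.inr (Or.inr (Or.inl ⟨d, rfl⟩)))
    · exact Or.inr (Or.inr (Or.inr (Or.inr h)))
  have e0 : ∀ i, elt k (0, i) = Sum.inr (pro k i) := fun i => rfl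
  have e1 : ∀ i, elt k (1, i) = Sum.inl (.nom i) := fun i => rfl
  have e2 : ∀ i, elt k (2, i) = Sum.inl (.fr i) := fun i => rfl
  have e3 : ∀ i, elt k (3, i) = Sum.inl (.lv i) := fun i => rfl
  have e4 : elt k (4, 0) = Sum.inr (one k) := rfl
  rcases h1 a ha with ⟨i, rfl⟩ | ⟨i, rfl⟩ | ⟨i, rfl⟩ | ⟨i, rfl⟩ | rfl <;>
    rcases h1 b hb with ⟨j, rfl⟩ | ⟨j, rfl⟩ | ⟨j, rfl⟩ | ⟨j, rfl⟩ | rfl <;>
    simp only [e0, e1, e2, e3, e4, Sum.inr.injEq, Sum.inl.injEq, Nm.nom.injEq, Nm.fr.injEq,
      Nm.lv.injEq, reduceCtorEq] at h <;>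
    first
    | rfl
    | (subst h; rfl)
    | (exact absurd h (pro_ne_one k _))
    | (exact absurd h.symm (pro_ne_one k _))
    | (rw [pro_inj k h])

/-- The look-up in the table. -/
lemma look_eq {Tb : Tab} (hnd : (Tb.map Prod.fst).Nodup) {e : ℕ × List It} (he : e ∈ Tb) :
    look Tb e.1 = e.2 := by
  unfold look
  have h1 : Tb.find? (fun e' => decide (e'.1 = e.1)) = some e := by
    induction Tb with
    | nil => simp at he
    | cons c Tb ih =>
      rw [List.map_cons, List.nodup_cons] at hnd
      rcases List.mem_cons.1 he with h | h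
      · subst h
        simp
      · rw [List.find?_cons_of_neg, ih hnd.2 h]
        simp only [decide_eq_true_eq]
        intro h2
        exact hnd.1 (h2 ▸ List.mem_map_of_mem h)
  rw [h1]; rfl

lemma vit_four (Tb : Tab) (k : ℕ) : vit Tb k (4, 0) := by
  cases k with
  | zero => exact Or.inr rfl
  | succ k => exact Or.inr (Or.inl rfl)

lemma sum_symm (f : It → ZMod 2) (S S' : Finset It) :
    ∑ a ∈ symmDiff S S', f a = ∑ a ∈ S, f a + ∑ a ∈ S', f a := by
  have h1 : ∀ z : ZMod 2, z + z = 0 := by decide
  have h2 : ∑ a ∈ S, f a = ∑ a ∈ S \ S', f a + ∑ a ∈ S ∩ S', f a := by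
    rw [add_comm]; exact (Finset.sum_inter_add_sum_sdiff S S' f).symm
  have h3 : ∑ a ∈ S', f a = ∑ a ∈ S' \ S, f a + ∑ a ∈ S ∩ S', f a := by
    rw [add_comm, Finset.inter_comm]; exact (Finset.sum_inter_add_sum_sdiff S' S f).symm
  have h4 : symmDiff S S' = (S \ S') ∪ (S' \ S) := rfl
  rw [h4, Finset.sum_union, h2, h3]
  · linear_combination -(h1 (∑ a ∈ S ∩ S', f a))
  · rw [Finset.disjoint_left]
    intro a ha hb
    simp only [Finset.mem_sdiff] at ha hb
    exact ha.2 hb.1

/-- A set of base items whose sum vanishes is empty. -/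
lemma base_case (τ : Bool) (Tb : Tab) (k : ℕ) (S : Finset It) (hS : ∀ a ∈ S, bv a)
    (h0 : ∀ x : E k, ∑ a ∈ S, pv τ Tb k x a = 0) : S = ∅ := by
  by_contra hne
  obtain ⟨a, ha⟩ := Finset.nonempty_iff_ne_empty.2 hne
  have h1 := h0 (elt k a)
  have h2 : ∑ b ∈ S, pv τ Tb k (elt k a) b = pv τ Tb k (elt k a) a := by
    refine Finset.sum_eq_single a ?_ (fun h => absurd ha h)
    intro b hb hba
    unfold pv
    rw [isem_bv τ Tb k b (hS b hb), if_neg]
    intro h
    exact hba (elt_inj k (hS a ha) (hS b hb) (Finset.mem_singleton.1 h)).symm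
  rw [h2] at h1
  unfold pv at h1
  rw [isem_bv τ Tb k a (hS a ha), if_pos (Finset.mem_singleton_self _)] at h1
  exact absurd h1 (by decide)

theorem indep (τ : Bool) (q : ℕ) (Tb : Tab) (hG : Good τ q Tb) : ∀ (k : ℕ) (S : Finset It),
    (∀ a ∈ S, vit Tb k a) → (∀ x : E k, ∑ a ∈ S, pv τ Tb k x a = 0) → S = ∅ := by
  intro k
  induction k with
  | zero =>
    intro S hS h0
    exact base_case τ Tb 0 S hS h0
  | succ k ih =>
    intro S hS h0
    -- the entry of an item `(6, q)`
    have hent : ∀ a ∈ S, a.1 = 6 → ∃ e ∈ Tb, e.1 = a.2 ∧ look Tb a.2 = e.2 ∧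
        ∀ b ∈ e.2, vit Tb k b := by
      intro a ha h6
      rcases hS a ha with h | h | ⟨-, ⟨e, he, hea⟩, h⟩
      · omega
      · rw [h] at h6; exact absurd h6 (by decide)
      · have h1 := look_eq hG.nd he
        rw [hea] at h1
        exact ⟨e, he, hea, h1, fun b hb => h b (h1 ▸ hb)⟩
    -- from IH
    have hIH : ∀ s s' : List It, s.Nodup → s'.Nodup → (∀ b ∈ s, vit Tb k b) →
        (∀ b ∈ s', vit Tb k b) → ISet τ Tb k s = ISet τ Tb k s' → s.toFinset = s'.toFinset := by
      intro s s' hs hs' hv hv' heq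
      have h1 : symmDiff s.toFinset s'.toFinset = ∅ := by
        apply ih
        · intro b hb
          rw [Finset.mem_symmDiff, List.mem_toFinset, List.mem_toFinset] at hb
          rcases hb with hb | hb
          · exact hv b hb.1
          · exact hv' b hb.1
        · intro x
          rw [sum_symm]
          have h2 := mem_ISet' τ Tb k x s hs
          have h3 := mem_ISet' τ Tb k x s' hs'
          rw [heq] at h2
          have h4 : (∑ a ∈ s.toFinset, pv τ Tb k x a = 1 ↔
            ∑ a ∈ s'.toFinset, pv τ Tb k x a = 1) := h2.symm.trans h3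
          rcases zcases (∑ a ∈ s.toFinset, pv τ Tb k x a) with h5 | h5 <;>
            rcases zcases (∑ a ∈ s'.toFinset, pv τ Tb k x a) with h6 | h6
          · rw [h5, h6]; rfl
          · rw [h5, h6] at h4; exact absurd (h4.2 rfl) (by decide)
          · rw [h5, h6] at h4; exact absurd (h4.1 rfl) (by decide)
          · rw [h5, h6]; decide
      exact symmDiff_eq_bot.1 h1
    by_cases hex : ∃ a ∈ S, a.1 = 6
    · exfalso
      have hne : (S.filter fun a => a.1 = 6).Nonempty := by
        obtain ⟨a, ha, h6⟩ := hex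
        exact ⟨a, Finset.mem_filter.2 ⟨ha, h6⟩⟩
      obtain ⟨a, ha, hmax⟩ := Finset.exists_max_image _
        (fun a => (ISet τ Tb k (look Tb a.2)).card) hne
      obtain ⟨haS, ha6⟩ := Finset.mem_filter.1 ha
      obtain ⟨e, he, hea, hla, hva⟩ := hent a haS ha6
      set c := ISet τ Tb k (look Tb a.2) with hc
      have hcne : c ≠ ∅ := by
        intro h
        have h1 := hIH e.2 [] (hG.nds e he) List.nodup_nil hva (by simp)
          (by rw [← hla, ← hc, h]; rfl)
        have h2 : e.2 = [] := by
          rw [List.toFinset_nil, List.toFinset_eq_empty_iff] at h1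
          exact h1
        exact hG.ne e he h2
      have hcone : ¬ (τ = true ∧ c = {Sum.inr (one k)}) := by
        rintro ⟨hτ, h⟩
        have h1 := hIH e.2 [(4, 0)] (hG.nds e he) (List.nodup_singleton _) hva
          (by intro b hb; rw [List.mem_singleton.1 hb]; exact vit_four Tb k)
          (by
            rw [← hla, ← hc, h]
            have : ISet τ Tb k [(4, 0)] = symmDiff (isem τ Tb k (4, 0)) ∅ := rfl
            rw [this, isem_bv τ Tb k (4, 0) (Or.inr rfl)]
            ext y
            simp [Finset.mem_symmDiff, elt])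
        have h2 : e.2 = [(4, 0)] := by
          have hn := hG.nds e he
          have hmem : ∀ b, b ∈ e.2 ↔ b = (4, 0) := by
            intro b
            rw [← List.mem_toFinset, h1]
            simp
          have h3 : e.2.Perm [(4, 0)] := by
            rw [List.perm_ext_iff_of_nodup hn (List.nodup_singleton _)]
            intro b
            rw [hmem, List.mem_singleton]
          exact List.perm_singleton.1 h3
        exact hG.no hτ e he h2
      have htst : tst' τ c = tst c := if_neg hcone
      -- the value of `inr (tst c)`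
      have h1 := h0 (Sum.inr (tst c))
      have h2 : ∑ b ∈ S, pv τ Tb (k + 1) (Sum.inr (tst c)) b =
          pv τ Tb (k + 1) (Sum.inr (tst c)) a := by
        refine Finset.sum_eq_single a ?_ (fun h => absurd haS h)
        intro b hb hba
        unfold pv
        rw [if_neg]
        intro hmem
        by_cases hb6 : b.1 = 6
        · rw [isem, if_pos hb6] at hmem
          have hmem' : (Sum.inr (tst c) : E (k + 1)) ∈ dsup τ (ISet τ Tb k (look Tb b.2)) := hmem
          unfold dsup at hmem'
          rw [Finset.mem_image] at hmem'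
          obtain ⟨A, hA, hAe⟩ := hmem'
          rw [Finset.mem_erase, Finset.mem_powerset] at hA
          have hAt : tst' τ A = tst c := Sum.inr.inj hAe
          have hAc : A = c := by
            unfold tst' at hAt
            split_ifs at hAt with h3
            · exact absurd hAt (by intro h; exact absurd h (by simp [one, tst]))
            · exact Sum.inr.inj hAt
          rw [hAc] at hA
          have hle := hmax b (Finset.mem_filter.2 ⟨hb, hb6⟩)
          have heq := Finset.eq_of_subset_of_card_le hA.2 hle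
          obtain ⟨e', he', heb, hlb, hvb⟩ := hent b hb hb6
          have h3 := hIH e.2 e'.2 (hG.nds e he) (hG.nds e' he') hva hvb
            (by rw [← hla, ← hlb, ← hc, heq])
          have h4 := hG.inj e he e' he' h3
          apply hba
          refine Prod.ext (by rw [hb6, ha6]) ?_
          rw [← heb, ← hea, h4]
        · have hbv : bv b := by
            rcases hS b hb with h | h | h
            · exact Or.inl h
            · exact Or.inr h
            · exact absurd h.1 hb6
          rw [isem_bv τ Tb (k + 1) b hbv, Finset.mem_singleton] at hmem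
          unfold elt at hmem
          split_ifs at hmem
          · exact absurd (Sum.inr.inj hmem) (by simp [tst, pro])
          · exact absurd (Sum.inr.inj hmem) (by simp [tst, one])
      rw [h2] at h1
      have h3 : (Sum.inr (tst c) : E (k + 1)) ∈ isem τ Tb (k + 1) a := by
        rw [isem, if_pos ha6]
        show (Sum.inr (tst c) : E (k + 1)) ∈ dsup τ (ISet τ Tb k (look Tb a.2))
        unfold dsup
        rw [Finset.mem_image]
        refine ⟨c, ?_, ?_⟩
        · rw [Finset.mem_erase, Finset.mem_powerset]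
          exact ⟨hcne, le_refl _⟩
        · rw [htst]
      unfold pv at h1
      rw [if_pos h3] at h1
      exact absurd h1 (by decide)
    · apply base_case τ Tb (k + 1) S ?_ h0
      intro a ha
      rcases hS a ha with h | h | h
      · exact Or.inl h
      · exact Or.inr h
      · exact absurd ⟨a, ha, h.1⟩ hex

end B3P

theorem b3 : B3 := by
  intro τ q Tb hG k s hs hv h0
  have h1 : s.toFinset = ∅ := by
    apply B3P.indep τ q Tb hG k
    · intro a ha
      exact hv a (List.mem_toFinset.1 ha)
    · intro x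
      have h2 := B3P.mem_ISet' τ Tb k x s hs
      rw [h0] at h2
      rcases B3P.zcases (∑ a ∈ s.toFinset, B3P.pv τ Tb k x a) with h | h
      · exact h
      · exact absurd (h2.2 h) (Finset.notMem_empty _)
  exact List.toFinset_eq_empty_iff _ |>.1 h1

end Pool.Agent.H75C.HY.NF
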